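import Pool.Agent.H56.ER2.Targets

/-!
# MP_816b90_co, row IB2 (helper30)
-/

set_option autoImplicit false

namespace Pool.Agent.H30.ER2

open Pool.Agent.H48.ER Pool.Agent.H52.ER2 Pool.Agent.H66.ER2 Pool.Agent.H56.ER2

theorem pf_IB2 (hIB1 : T_IB1) : T_IB2 := by
  intro V G v n z p q y x i j k hS hF hA H
  have hq := hIB1 V G v n z p q y x i j k hS hF hA H
  subst hq
  have h1 := hA.j1
  have h2 := hA.jk
  have h3 := hA.kq
  have h4 := hA.i1
  have h5 := hA.ip
  have hk : k = 2 := by omega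
  subst hk
  have h6 : G.Adj (y i) (y p) := by
    rw [← hA.xy]
    exact hA.ck
  rw [hA.py.adj i p h5.le le_rfl] at h6
  have h7 : i + 1 = p := by omega
  have h8 : G.Adj (z 1) (y 1) := (H (y 1) (Or.inl ⟨1, le_rfl, h4, rfl⟩)).2.2 rfl
  have h9 := hA.ey 1 le_rfl (by omega) h8 (by
    intro l hl hlp hadj
    rcases Nat.lt_or_ge i l with hil | hil
    · have hl' : l = p := by omega
      subst hl'
      have hb := hA.b
      have h4' := hF.four
      exact hb.2.2 1 Nat.one_pos (by omega) hadj.symm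
    · have h10 := (H (y l) (Or.inl ⟨l, hl.le, hil, rfl⟩)).2.1 hadj
      have h11 := hA.py.inj l 1 hlp (by omega) h10
      omega)
  exact absurd h9 (by decide)

end Pool.Agent.H30.ER2
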