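import Pool.Agent.H56.ER2.Targets

/-!
# MP_816b90_co, row SGC (helper30)
-/

set_option autoImplicit false

namespace Pool.Agent.H30.ER2

open Pool.Agent.H48.ER Pool.Agent.H52.ER2 Pool.Agent.H66.ER2 Pool.Agent.H56.ER2

theorem pf_SGC (hRVZ : T_RVZ) (hQPR : T_QPR) (hFCT : T_FCT) (hSGB : T_SGB) : T_SGC := by
  intro V G v n z m g i l s t T hS _ hQ hM hi hv hno
  obtain ⟨hS', _, _, hW⟩ := hRVZ V G v n z hS
  have hF' := hFCT V G v n (rz n z) hS'
  have hQ' := hQPR V G v n z m g hS hQ
  have hik := hM.ik
  have hM' : Sgm G n (rz n z) (rz m g) 0 (m - i) l t s T :=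
    { ik := by omega
      ip := hM.ip.rev
      sub := by
        rw [hW]
        exact hM.sub
      ls := by
        intro w hw
        exact hM.rt w hw
      rt := by
        intro w hw
        have e : rz m g (m - i) = g i := by
          show g (m - (m - i)) = g i
          congr 1
          omega
        rw [e]
        exact hM.ls w hw
      no := by
        intro j hj0 hj w hw
        rw [hW] at hw
        exact hM.no (m - j) (by omega) (by omega) w hw
      out := by
        intro j _ hj
        rw [hW]
        exact hM.out (m - j) (by omega) (by omega)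
      ev := hM.ev }
  refine hSGB V G v n (rz n z) m (rz m g) (m - i) l t s T hS' hF' hQ' hM' (by omega) hv ?_
  intro j hj1 hj
  exact hno (m - j) (by omega) (by omega)

end Pool.Agent.H30.ER2
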